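import Pool.Agent.H315R2.EB.Stubs

/-! Task VAL: valuations of elements of `K` (helper25). -/

namespace Pool.Agent.H25R2.EB

open Module Pool.Agent.H315R2.EB
open scoped Pointwise

theorem VAL_proof : St_VAL := by
  intro O K _ _ _ _ _ _ p hp
  obtain ⟨ϖ, hϖ, hϖp⟩ := hp
  have hinj : Function.Injective (algebraMap O K) := IsFractionRing.injective O K
  have hpow : ∀ n : ℕ, algebraMap O K (ϖ ^ n) = ((p ^ (n : ℤ) : Kˣ) : K) := by
    intro n
    rw [map_pow, hϖp, zpow_natCast, Units.val_pow_eq_pow_val]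
  constructor
  · intro c
    obtain ⟨x, y, hy, hxy⟩ := IsFractionRing.div_surjective (A := O) (c : K)
    have hy0 : y ≠ 0 := nonZeroDivisors.ne_zero hy
    have hx0 : x ≠ 0 := by
      rintro rfl
      rw [map_zero, zero_div] at hxy
      exact c.ne_zero hxy.symm
    obtain ⟨n, u, hu⟩ := IsDiscreteValuationRing.eq_unit_mul_pow_irreducible hx0 hϖ
    obtain ⟨m, v, hv⟩ := IsDiscreteValuationRing.eq_unit_mul_pow_irreducible hy0 hϖ
    refine ⟨u * v⁻¹, (n : ℤ) - m, ?_⟩
    have hvv : algebraMap O K ((v⁻¹ : Oˣ) : O) * algebraMap O K (v : O) = 1 := by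
      rw [← map_mul, Units.inv_mul, map_one]
    have hv0 : algebraMap O K (v : O) ≠ 0 := right_ne_zero_of_mul_eq_one hvv
    have hv1 : algebraMap O K ((v⁻¹ : Oˣ) : O) = (algebraMap O K (v : O))⁻¹ :=
      eq_inv_of_mul_eq_one_left hvv
    rw [← hxy, hu, hv, map_mul, map_mul, hpow, hpow, Units.val_mul, map_mul, hv1,
      zpow_sub, Units.val_mul, Units.val_inv_eq_inv_val]
    have h3 : ((p ^ (m : ℤ) : Kˣ) : K) ≠ 0 := Units.ne_zero _
    field_simp
  · intro k
    constructor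
    · rintro ⟨x, hx⟩
      by_contra hk
      obtain ⟨n, hn⟩ : ∃ n : ℕ, k = -((n : ℤ) + 1) := ⟨(-k - 1).toNat, by omega⟩
      have h1 : algebraMap O K (x * ϖ ^ (n + 1)) = algebraMap O K 1 := by
        rw [map_mul, hx, hpow, ← Units.val_mul, ← zpow_add, map_one, hn]
        have : -((n : ℤ) + 1) + ((n + 1 : ℕ) : ℤ) = 0 := by push_cast; ring
        rw [this, zpow_zero, Units.val_one]
      have h2 := hinj h1
      refine hϖ.not_isUnit ?_
      rw [pow_succ, ← mul_assoc] at h2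
      exact IsUnit.of_mul_eq_one _ ((mul_comm _ _).trans h2)
    · intro hk
      obtain ⟨n, rfl⟩ := Int.eq_ofNat_of_zero_le hk
      exact ⟨ϖ ^ n, hpow n⟩

end Pool.Agent.H25R2.EB
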